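import Pool.Agent.H32.BE.KRS
import Pool.Agent.H9.KA.Defs

/-!
# The capacity: directions, windows, entropy forms
-/

set_option autoImplicit false

namespace Pool.BE

open Finset Real MvPolynomial
open Pool.Agent.H49.Ent Pool.Agent.H32.Dense Pool.STK Pool.KA
open Pool.SH (Ln lpos lsec)

variable {m M : ℕ}

/-- **(FIN)** The number of the directions, by the capacity at the largest window. -/
theorem cap_fin (m M E : ℕ) : ∃ C : ℝ, 0 ≤ C ∧ ∀ (J : ℕ)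
    (f : Fin M → MvPolynomial (Fin m ⊕ Fin m) ℝ), (∀ i, (f i).totalDegree ≤ E) → LpJ J f →
    ((fun l : Ln m => fl J l.2) '' LLn f 1).Finite ∧
    Real.log (((fun l : Ln m => fl J l.2) '' LLn f 1).ncard) ≤ cap J 0 0 (LLn f 2) + C := by
  obtain ⟨C, hC, h⟩ := krs_dir m M E
  refine ⟨Real.log C, Real.log_nonneg hC, ?_⟩
  intro J f hf hL
  obtain ⟨h1, h2⟩ := h J f hf hL
  refine ⟨h1, ?_⟩
  have h3 : Real.log (mxs J (Set.Icc 0 1) (LLn f 2)) ≤ cap J 0 0 (LLn f 2) := by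
    have h4 := le_cap (J := J) (T := 0) (LL := LLn f 2) (le_refl 0)
    rw [sub_self, zero_mul, mul_zero, sub_zero, wnd_zero 0 0 (by norm_num)] at h4
    exact h4
  rcases Nat.eq_zero_or_pos (((fun l : Ln m => fl J l.2) '' LLn f 1).ncard) with h0 | h0
  · rw [h0, Nat.cast_zero, Real.log_zero]
    have := cap_nonneg J 0 0 (LLn f 2)
    have := Real.log_nonneg hC
    linarith
  · have hn : (0 : ℝ) < ((((fun l : Ln m => fl J l.2) '' LLn f 1).ncard : ℕ) : ℝ) := by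
      exact_mod_cast h0
    have hm : (0 : ℝ) < mxs J (Set.Icc 0 1) (LLn f 2) := by
      rcases (Nat.cast_nonneg (mxs J (Set.Icc 0 1) (LLn f 2)) : (0 : ℝ) ≤ _).eq_or_lt with e | e
      · rw [← e, mul_zero] at h2
        linarith
      · exact e
    have h4 := Real.log_le_log hn h2
    rw [Real.log_mul (by positivity) hm.ne'] at h4
    linarith

/-- **(PKR)** The capacity of the single cell, by the sections of the doubled cell in the window
itself. -/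
theorem cap_pkr (m M E : ℕ) : ∃ C : ℝ, 0 ≤ C ∧ ∀ (J : ℕ)
    (f : Fin M → MvPolynomial (Fin m ⊕ Fin m) ℝ), (∀ i, (f i).totalDegree ≤ E) → LpJ J f →
    ∀ w T : ℕ, T < 2 ^ w →
      cap J w T (LLn f 1) ≤ Real.log (mxs J (wnd w w T) (LLn f 2)) + C := by
  obtain ⟨C, hC, h⟩ := krs_sec m M E
  refine ⟨Real.log C, Real.log_nonneg hC, ?_⟩
  intro J f hf hL w T hT
  have hlC := Real.log_nonneg hC
  have hwnd : wnd w w T = Set.Icc ((T : ℝ) / 2 ^ w) ((T : ℝ) / 2 ^ w + 1 / 2 ^ w) := by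
    unfold wnd
    rw [Nat.sub_self, pow_zero, Nat.div_one, add_div]
  have hT1 : (T : ℝ) / 2 ^ w + 1 / 2 ^ w ≤ 1 := by
    rw [← add_div, div_le_one (by positivity)]
    exact_mod_cast hT
  refine cap_le fun w₁ hw₁ => ?_
  have hsub := wnd_sub hw₁ hT
  have hT0 : (T : ℝ) / 2 ^ w ∈ wnd w w₁ T := by
    refine wnd_mono hw₁ le_rfl ?_
    rw [hwnd]
    exact ⟨le_rfl, by linarith [show (0 : ℝ) ≤ 1 / 2 ^ w by positivity]⟩
  have e0 : (2 : ℝ) ^ w = 2 ^ (w - w₁) * 2 ^ w₁ := by rw [← pow_add, Nat.sub_add_cancel hw₁]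
  have hrat : (1 / (2 : ℝ) ^ w₁) / (1 / 2 ^ w) = 2 ^ (w - w₁) := by
    rw [e0]
    field_simp
  have hbound : ∀ t ∈ wnd w w₁ T, (((lsec J t (LLn f 1)).ncard : ℕ) : ℝ) ≤
      C * (2 ^ (w - w₁)) ^ m * mxs J (wnd w w T) (LLn f 2) := by
    intro t ht
    have ht1 := hsub ht
    have h1 := h J f hf hL ((T : ℝ) / 2 ^ w) (1 / 2 ^ w) (1 / 2 ^ w₁) t (by positivity)
      (by positivity) hT1 (by
        refine one_div_le_one_div_of_le (by positivity) (pow_le_pow_right₀ (by norm_num) hw₁))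
      ht1.1 ht1.2 (by
        unfold wnd at ht hT0
        rw [add_div] at ht hT0
        rw [abs_le]
        constructor <;> linarith [ht.1, ht.2, hT0.1, hT0.2])
    rw [hrat, ← hwnd] at h1
    exact h1
  have h1 : ((mxs J (wnd w w₁ T) (LLn f 1) : ℕ) : ℝ) ≤
      C * (2 ^ (w - w₁)) ^ m * mxs J (wnd w w T) (LLn f 2) := by
    have h2 : mxs J (wnd w w₁ T) (LLn f 1) ≤
        ⌊C * (2 ^ (w - w₁)) ^ m * mxs J (wnd w w T) (LLn f 2)⌋₊ :=
      mxs_le fun t ht => Nat.le_floor (hbound t ht)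
    calc ((mxs J (wnd w w₁ T) (LLn f 1) : ℕ) : ℝ) ≤
          (⌊C * (2 ^ (w - w₁)) ^ m * mxs J (wnd w w T) (LLn f 2)⌋₊ : ℝ) := by exact_mod_cast h2
      _ ≤ _ := Nat.floor_le (by positivity)
  have hl2 : 0 ≤ m * (((w : ℝ) - w₁) * Real.log 2) := by
    have h3 : (0 : ℝ) ≤ (w : ℝ) - w₁ := by
      have : (w₁ : ℝ) ≤ w := by exact_mod_cast hw₁
      linarith
    positivity
  rcases Nat.eq_zero_or_pos (mxs J (wnd w w₁ T) (LLn f 1)) with h0 | h0
  · rw [h0, Nat.cast_zero, Real.log_zero]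
    have := Real.log_natCast_nonneg (mxs J (wnd w w T) (LLn f 2))
    linarith
  · have hn : (0 : ℝ) < ((mxs J (wnd w w₁ T) (LLn f 1) : ℕ) : ℝ) := by exact_mod_cast h0
    have hm : (0 : ℝ) < mxs J (wnd w w T) (LLn f 2) := by
      rcases (Nat.cast_nonneg (mxs J (wnd w w T) (LLn f 2)) : (0 : ℝ) ≤ _).eq_or_lt with e | e
      · rw [← e, mul_zero] at h1
        linarith
      · exact e
    have h4 := Real.log_le_log hn h1
    rw [Real.log_mul (by positivity) hm.ne', Real.log_mul (by positivity) (by positivity),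
      Real.log_pow, Real.log_pow, Nat.cast_sub hw₁] at h4
    linarith

/-! ### Entropy forms -/

/-- The positions given a label: at most the logarithm of the number of the cells. -/
theorem ch_sec {Ω : Type} [Fintype Ω] {p : Ω → ℝ} (hp : IsLaw p) {J : ℕ} {B U : Type}
    (l : Ω → Ln m) (t : Ω → ℝ) (b : Ω → B) (Y : Ω → U) (LL : B → Set (Ln m)) (w : ℕ) (T : Ω → ℕ)
    (hT : ∀ ω, 0 < p ω → T ω < 2 ^ w ∧ t ω ∈ wnd w w (T ω))
    (hLL : ∀ y, LL y ⊆ Bx m 2) (hl : ∀ ω, 0 < p ω → l ω ∈ LL (b ω))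
    (hY : ∀ ω ω', 0 < p ω → 0 < p ω' → Y ω = Y ω' → b ω = b ω' ∧ t ω = t ω') :
    CH p (fun ω => fl J (lpos (l ω) (t ω))) Y ≤ Ex p (fun ω => cap J w (T ω) (LL (b ω))) := by
  classical
  have hfin : ∀ ω, 0 < p ω → (lsec J (t ω) (LL (b ω))).Finite := by
    intro ω hω
    obtain ⟨h1, h2⟩ := hT ω hω
    have h3 := wnd_sub le_rfl h1 h2
    exact lsec_fin h3.1 h3.2 (hLL _)
  obtain ⟨S, hS⟩ : ∃ S : U → Finset (Fin m → ℤ), ∀ ω, 0 < p ω →
      (S (Y ω) : Set (Fin m → ℤ)) = lsec J (t ω) (LL (b ω)) := by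
    refine ⟨fun y => if h : ∃ ω, 0 < p ω ∧ Y ω = y then
      (hfin h.choose h.choose_spec.1).toFinset else ∅, ?_⟩
    intro ω hω
    have h : ∃ ω', 0 < p ω' ∧ Y ω' = Y ω := ⟨ω, hω, rfl⟩
    beta_reduce
    rw [dif_pos h, Set.Finite.coe_toFinset]
    obtain ⟨h1, h2⟩ := hY _ ω h.choose_spec.1 hω h.choose_spec.2
    rw [h1, h2]
  refine (CH_le_card hp.nonneg hp.sum_one _ Y S fun ω hω => ?_).trans ?_
  · rw [← Finset.mem_coe, hS ω hω]
    exact ⟨l ω, hl ω hω, rfl⟩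
  · refine Ex_mono hp.nonneg fun ω hω => ?_
    obtain ⟨h1, h2⟩ := hT ω hω
    have h3 := cap_cnt (J := J) h1 (hLL (b ω)) h2
    rw [← hS ω hω, Set.ncard_coe_finset] at h3
    exact h3

/-- The directions given a label. -/
theorem ch_dirs (m M E : ℕ) : ∃ C : ℝ, 0 ≤ C ∧ ∀ {Ω : Type} [Fintype Ω] {p : Ω → ℝ}
    (_ : IsLaw p) (J : ℕ) (B : Type) (l : Ω → Ln m) (b : Ω → B)
    (f : B → Fin M → MvPolynomial (Fin m ⊕ Fin m) ℝ),
    (∀ y i, (f y i).totalDegree ≤ E) → (∀ ω, 0 < p ω → LpJ J (f (b ω))) →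
    (∀ ω, 0 < p ω → l ω ∈ LLn (f (b ω)) 1) →
    CH p (fun ω => fl J (l ω).2) b ≤ Ex p (fun ω => cap J 0 0 (LLn (f (b ω)) 2)) + C := by
  classical
  obtain ⟨C, hC, h⟩ := cap_fin m M E
  refine ⟨C, hC, ?_⟩
  intro Ω _ p hp J B l b f hf hL hl
  obtain ⟨S, hS⟩ : ∃ S : B → Finset (Fin m → ℤ), ∀ ω, 0 < p ω →
      (S (b ω) : Set (Fin m → ℤ)) = (fun l : Ln m => fl J l.2) '' LLn (f (b ω)) 1 := by
    refine ⟨fun y => if hy : LpJ J (f y) then (h J (f y) (hf y) hy).1.toFinset else ∅, ?_⟩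
    intro ω hω
    beta_reduce
    rw [dif_pos (hL ω hω), Set.Finite.coe_toFinset]
  refine (CH_le_card hp.nonneg hp.sum_one _ b S fun ω hω => ?_).trans ?_
  · rw [← Finset.mem_coe, hS ω hω]
    exact ⟨l ω, hl ω hω, rfl⟩
  · have e : Ex p (fun ω => cap J 0 0 (LLn (f (b ω)) 2)) + C =
        Ex p (fun ω => cap J 0 0 (LLn (f (b ω)) 2) + C) := by
      rw [Ex_add, Ex_const hp.sum_one]
    rw [e]
    refine Ex_mono hp.nonneg fun ω hω => ?_
    have h3 := (h J (f (b ω)) (hf _) (hL ω hω)).2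
    rw [← hS ω hω, Set.ncard_coe_finset] at h3
    exact h3

end Pool.BE
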