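import Pool.Agent.H32.BE.Pol
import Pool.Agent.H32.KR.Cnt

/-!
# Directions and sections of sets of lines of bounded degree
-/

set_option autoImplicit false

namespace Pool.BE

open Finset Real MvPolynomial
open Pool.Agent.H49.Ent Pool.Agent.H32.Dense Pool.STK Pool.KA
open Pool.SH (Ln lpos lsec)
open Pool.GEN (tt tt_inj tt_mem)
open Pool.Agent.H50.PW (wt wz wt_nonneg wz_nonneg swept sweptS volume_directions_le
  volume_slice_le card_mul_le_volume)

variable {m M : ℕ}

theorem LLn_mono (f : Fin M → MvPolynomial (Fin m ⊕ Fin m) ℝ) {a b : ℝ} (h : a ≤ b) :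
    LLn f a ⊆ LLn f b :=
  fun _ hl => ⟨Bx_mono h hl.1, fun i => (hl.2 i).trans h⟩

theorem LLn_sub (f : Fin M → MvPolynomial (Fin m ⊕ Fin m) ℝ) : LLn f 2 ⊆ Bx m 2 :=
  fun _ hl => hl.1

/-- The separation of the cells. -/
theorem cells_sep (J : ℕ) (𝓥 : Finset (Fin m → ℤ)) :
    ∀ D ∈ 𝓥.image (fun v k => (v k : ℝ) * (1 / 2 ^ J)),
      ∀ D' ∈ 𝓥.image (fun v k => (v k : ℝ) * (1 / 2 ^ J)), D ≠ D' → (1 : ℝ) / 2 ^ J ≤ dist D D' := by
  intro D hD D' hD' hne
  have hδ : (0 : ℝ) < 1 / 2 ^ J := by positivity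
  obtain ⟨v, -, rfl⟩ := Finset.mem_image.1 hD
  obtain ⟨v', -, rfl⟩ := Finset.mem_image.1 hD'
  have h1 : v ≠ v' := fun h => hne (by rw [h])
  obtain ⟨k, hk⟩ := Function.ne_iff.1 h1
  refine le_trans ?_ (dist_le_pi_dist _ _ k)
  rw [Real.dist_eq, ← sub_mul, abs_mul, abs_of_pos hδ]
  have h2 : (1 : ℝ) ≤ |(v k : ℝ) - v' k| := by
    have : (1 : ℤ) ≤ |v k - v' k| := Int.one_le_abs (sub_ne_zero.2 hk)
    exact_mod_cast this
  nlinarith only [hδ, h2]

theorem cells_inj (J : ℕ) : Function.Injective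
    (fun (v : Fin m → ℤ) (k : Fin m) => (v k : ℝ) * (1 / 2 ^ J)) := by
  intro v v' h
  have hδ : (0 : ℝ) < 1 / 2 ^ J := by positivity
  funext k
  have h1 := congrFun h k
  simp only [mul_left_inj' hδ.ne'] at h1
  exact_mod_cast h1

/-- A point near the corner of the cell of `x`. -/
theorem near_cell {J : ℕ} {x y : Fin m → ℝ}
    (h : dist y (fun k => (fl J x k : ℝ) * (1 / 2 ^ J)) < 1 / 2 ^ J / 2) (k : Fin m) :
    |y k - x k| ≤ 2 / 2 ^ J := by
  have hJ : (0 : ℝ) < 2 ^ J := by positivity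
  obtain ⟨δ, hδe⟩ : ∃ δ : ℝ, δ = 1 / 2 ^ J := ⟨_, rfl⟩
  have hδ : 0 < δ := by rw [hδe]; positivity
  have e2 : (2 : ℝ) / 2 ^ J = 2 * δ := by rw [hδe]; ring
  rw [← hδe] at h
  rw [e2]
  have h1 : |y k - (fl J x k : ℝ) * δ| ≤ δ / 2 := by
    have := (dist_le_pi_dist y (fun k => (fl J x k : ℝ) * δ) k).trans h.le
    rwa [Real.dist_eq] at this
  have h2 : |(fl J x k : ℝ) * δ - x k| ≤ δ := by
    have e : fl J x k = ⌊2 ^ J * x k⌋ := rfl
    rw [e]
    have h3 : ((⌊2 ^ J * x k⌋ : ℤ) : ℝ) ≤ 2 ^ J * x k := Int.floor_le _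
    have h4 : 2 ^ J * x k < (⌊2 ^ J * x k⌋ : ℝ) + 1 := Int.lt_floor_add_one _
    have h5 : x k = 2 ^ J * x k * δ := by
      rw [hδe]
      field_simp
    rw [abs_le]
    constructor
    · nlinarith only [h5, hδ, h4]
    · nlinarith only [hδ, h5, h3]
  have h3 : y k - x k = (y k - (fl J x k : ℝ) * δ) + ((fl J x k : ℝ) * δ - x k) := by ring
  rw [h3]
  refine (abs_add_le _ _).trans ?_
  linarith only [hδ, h1, h2]

/-- **(FIN)** The directions of the lines of a set of bounded degree. -/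
theorem krs_dir (m M E : ℕ) : ∃ C : ℝ, 1 ≤ C ∧ ∀ (J : ℕ)
    (f : Fin M → MvPolynomial (Fin m ⊕ Fin m) ℝ), (∀ i, (f i).totalDegree ≤ E) → LpJ J f →
    ((fun l : Ln m => fl J l.2) '' LLn f 1).Finite ∧
    ((((fun l : Ln m => fl J l.2) '' LLn f 1).ncard : ℕ) : ℝ) ≤
      C * mxs J (Set.Icc 0 1) (LLn f 2) := by
  classical
  obtain ⟨p, hp1, hp⟩ := exists_pow m M
  obtain ⟨Wt, hWt⟩ : ∃ Wt : ℝ, Wt = ∑ i, wt (tt m) i := ⟨_, rfl⟩
  have hWt0 : 0 ≤ Wt := by rw [hWt]; exact Finset.sum_nonneg fun i _ => wt_nonneg _ _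
  obtain ⟨d, hd⟩ : ∃ d : ℕ, d = 2 * p * (E + 1) := ⟨_, rfl⟩
  have hd1 : 1 ≤ d := by rw [hd]; exact Nat.succ_le_of_lt (by positivity)
  obtain ⟨N, hN⟩ : ∃ N : ℕ, N = (d + 1) ^ (Fintype.card (Fin m) + Fintype.card (Fin m)) := ⟨_, rfl⟩
  refine ⟨9 ^ m + N * Wt, ?_, ?_⟩
  · have h1 : (1 : ℝ) ≤ 9 ^ m := one_le_pow₀ (by norm_num)
    have h2 : 0 ≤ N * Wt := by positivity
    linarith
  intro J f hf hL
  have hI : Set.Icc (0 : ℝ) 1 ⊆ Set.Icc 0 1 := le_rfl
  obtain ⟨hfin, hcard⟩ := cells_near J ((fun l : Ln m => l.2) '' LLn f 1) 0 1 zero_le_one (by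
    rintro _ ⟨l, hl, rfl⟩ i
    simp only [Pi.zero_apply, sub_zero]
    exact hl.1.2 i)
  rw [Set.image_image] at hfin hcard
  refine ⟨hfin, ?_⟩
  have hK0 : 0 ≤ (N : ℝ) * Wt := by positivity
  have h9 : (1 : ℝ) ≤ 9 ^ m := one_le_pow₀ (by norm_num)
  rcases Nat.lt_or_ge J 2 with hJ2 | hJ2
  · -- few digits
    rcases (LLn f 1).eq_empty_or_nonempty with he | hne
    · rw [he, Set.image_empty, Set.ncard_empty, Nat.cast_zero]
      positivity
    · have h1 : 1 ≤ mxs J (Set.Icc 0 1) (LLn f 2) :=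
        mxs_pos hI (LLn_sub f) (hne.mono (LLn_mono f one_le_two)) (t := 0) ⟨le_rfl, zero_le_one⟩
      have h1' : (1 : ℝ) ≤ mxs J (Set.Icc 0 1) (LLn f 2) := by exact_mod_cast h1
      have h2 : (2 : ℝ) ^ J ≤ 2 := by
        have : J ≤ 1 := by omega
        calc (2 : ℝ) ^ J ≤ 2 ^ 1 := pow_le_pow_right₀ (by norm_num) this
          _ = 2 := pow_one 2
      have h3 : (2 * (1 * 2 ^ J) + 5 : ℝ) ^ m ≤ 9 ^ m :=
        pow_le_pow_left₀ (by positivity) (by linarith) m
      have h4 : (9 : ℝ) ^ m ≤ (9 ^ m + N * Wt) * mxs J (Set.Icc 0 1) (LLn f 2) := by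
        nlinarith only [h1', h9, hK0]
      exact (hcard.trans h3).trans h4
  have hJ : (0 : ℝ) < 2 ^ J := by positivity
  have h2J : (2 : ℝ) / 2 ^ J ≤ 1 / 2 := by
    have h4 : (4 : ℝ) ≤ 2 ^ J := by
      calc (4 : ℝ) = 2 ^ 2 := by norm_num
        _ ≤ 2 ^ J := pow_le_pow_right₀ (by norm_num) hJ2
    rw [div_le_div_iff₀ hJ (by norm_num)]
    linarith
  obtain ⟨δ, hδe⟩ : ∃ δ : ℝ, δ = 1 / 2 ^ J := ⟨_, rfl⟩
  have hδ : 0 < δ := by rw [hδe]; positivity
  obtain ⟨𝓥, h𝓥⟩ : ∃ 𝓥 : Finset (Fin m → ℤ), 𝓥 = hfin.toFinset := ⟨_, rfl⟩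
  have hcv : ((fun l : Ln m => fl J l.2) '' LLn f 1).ncard = 𝓥.card := by
    rw [h𝓥, Set.ncard_eq_toFinset_card _ hfin]
  have h1 := card_mul_le_volume (𝓥.image (fun v k => (v k : ℝ) * (1 / 2 ^ J)))
    (δ := 1 / 2 ^ J) (by positivity) (cells_sep J 𝓥)
    {D ∈ Set.univ | ∃ A : Fin m → ℝ, ‖A‖ ≤ 1 ∧ eval (Sum.elim D A) (pol p f) ≤ 1} (by
      intro D hD D' hD'
      obtain ⟨v, hv, rfl⟩ := Finset.mem_image.1 hD
      rw [h𝓥, Set.Finite.mem_toFinset] at hv
      obtain ⟨l, hl, rfl⟩ := hv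
      rw [Metric.mem_ball] at hD'
      have h2 := near_cell hD'
      refine ⟨Set.mem_univ _, l.1, ?_, ?_⟩
      · rw [pi_norm_le_iff_of_nonneg zero_le_one]
        exact fun k => hl.1.1 k
      · refine pol_le p f _ (fun i => ?_) ?_
        · exact hL l (l.1, D') hl (fun k => by rw [sub_self, abs_zero]; positivity) h2 i
        · rintro (k | k)
          · simp only [Sum.elim_inl]
            have h3 := h2 k
            have h4 := hl.1.2 k
            have e : D' k = (D' k - l.2 k) + l.2 k := by ring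
            rw [e]
            refine (abs_add_le _ _).trans ?_
            linarith only [h3, h4, h2J]
          · simp only [Sum.elim_inr]
            have := hl.1.1 k
            linarith only [this])
  rw [Finset.card_image_of_injective 𝓥 (cells_inj J)] at h1
  have h2 := volume_directions_le (μ := Fin m) (ν := Fin m) hd1 (pol p f)
    (by rw [hd]; exact deg_pol p E f hf) (pol_nonneg p f) (fun k => X k)
    (fun k => by rw [totalDegree_X]; exact hd1) (tt m) (tt_inj m) Set.univ MeasurableSet.univ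
  have h3 : ∀ i, MeasureTheory.volume (swept (pol p f) (fun k : Fin m => X k) Set.univ (tt m i)) ≤
      ((mxs J (Set.Icc 0 1) (LLn f 2) : ℕ) : ENNReal) * ENNReal.ofReal (1 / 2 ^ J) ^ m := by
    intro i
    have hti := tt_mem m i
    have h4 : swept (pol p f) (fun k : Fin m => X k) Set.univ (tt m i) ⊆
        (fun l => lpos l (tt m i)) '' LLn f 2 := by
      rintro y ⟨D, -, A, -, hP, hy⟩
      rw [Fintype.card_fin] at hP
      obtain ⟨g1, g2⟩ := pol_ge p hp hp1 f _ hP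
      refine ⟨(A, D), ⟨⟨fun k => g2 (Sum.inr k), fun k => g2 (Sum.inl k)⟩, g1⟩, ?_⟩
      funext k
      have := hy k
      rw [eval_X] at this
      rw [this]
      rfl
    have h5 : (fl J '' ((fun l => lpos l (tt m i)) '' LLn f 2)).Finite := by
      rw [← lsec_eq]
      exact lsec_fin hti.1 hti.2 (LLn_sub f)
    refine (MeasureTheory.measure_mono h4).trans ((vol_cells J _ h5).trans ?_)
    refine mul_le_mul_left ?_ _
    rw [← lsec_eq]
    exact_mod_cast le_mxs hI (LLn_sub f) hti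
  have h4 : (𝓥.card : ENNReal) * ENNReal.ofReal (1 / 2 ^ J) ^ Fintype.card (Fin m) ≤
      ENNReal.ofReal ((N : ℝ) * (Wt * (mxs J (Set.Icc 0 1) (LLn f 2) * (1 / 2 ^ J) ^ m))) := by
    refine h1.trans (h2.trans ?_)
    rw [← hN, ENNReal.ofReal_mul (Nat.cast_nonneg _), ENNReal.ofReal_natCast]
    refine mul_le_mul_right ?_ _
    rw [ENNReal.ofReal_mul hWt0, hWt,
      ENNReal.ofReal_sum_of_nonneg fun i _ => wt_nonneg _ _, Finset.sum_mul]
    refine Finset.sum_le_sum fun i _ => ?_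
    refine mul_le_mul_right ?_ _
    refine (h3 i).trans (le_of_eq ?_)
    rw [ENNReal.ofReal_mul (Nat.cast_nonneg _), ENNReal.ofReal_natCast,
      ENNReal.ofReal_pow (by positivity)]
  rw [Fintype.card_fin, ← ENNReal.ofReal_natCast, ← ENNReal.ofReal_pow (by positivity),
    ← ENNReal.ofReal_mul (Nat.cast_nonneg _), ENNReal.ofReal_le_ofReal_iff (by positivity)] at h4
  rw [hcv]
  have h5 : (0 : ℝ) < (1 / 2 ^ J) ^ m := by positivity
  have h6 : (𝓥.card : ℝ) ≤ N * Wt * mxs J (Set.Icc 0 1) (LLn f 2) := by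
    refine le_of_mul_le_mul_right ?_ h5
    linarith only [h4]
  have h7 : (0 : ℝ) ≤ 9 ^ m * mxs J (Set.Icc 0 1) (LLn f 2) := by positivity
  linarith only [h6, h7]

/-- The substitution of the line through the point `y` at the time `t` with the direction `A`. -/
noncomputable def thr (m : ℕ) (t : ℝ) : Fin m ⊕ Fin m → MvPolynomial (Fin m ⊕ Fin m) ℝ :=
  Sum.elim (fun k => X (Sum.inr k)) (fun k => X (Sum.inl k) - C t * X (Sum.inr k))

theorem eval_thr (t : ℝ) (P : MvPolynomial (Fin m ⊕ Fin m) ℝ) (y A : Fin m → ℝ) :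
    eval (Sum.elim y A) (bind₁ (thr m t) P) =
      eval (Sum.elim A fun k => y k - t * A k) P := by
  rw [Pool.Agent.H50.PW.eval_bind₁_eq]
  congr 2
  funext a
  rcases a with k | k
  · simp [thr]
  · simp [thr]

theorem deg_thr (t : ℝ) (a : Fin m ⊕ Fin m) : (thr m t a).totalDegree ≤ 1 := by
  rcases a with k | k
  · simp only [thr, Sum.elim_inl, totalDegree_X, le_refl]
  · simp only [thr, Sum.elim_inr]
    refine (totalDegree_sub _ _).trans (max_le ?_ ?_)
    · rw [totalDegree_X]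
    · refine (totalDegree_mul _ _).trans ?_
      rw [totalDegree_C, totalDegree_X]

theorem wz_le (m : ℕ) (s : Fin (Fintype.card (Fin m) + 1) → ℝ) (h r : ℝ) (hh : 0 < h) (hr : h ≤ r)
    (h1 : ∀ i, |s i| ≤ 2 * r) (h2 : ∀ i j, i ≠ j → h / ((m : ℝ) + 1) ≤ |s i - s j|)
    (i : Fin (Fintype.card (Fin m) + 1)) : wz s i ≤ (2 * (m + 1) * (r / h)) ^ m := by
  unfold wz
  rw [Finset.abs_prod]
  have hm : (0 : ℝ) < (m : ℝ) + 1 := by positivity
  have hpos : 0 < h / ((m : ℝ) + 1) := by positivity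
  have h3 : ∀ j ∈ Finset.univ.erase i, |s j / (s i - s j)| ≤ 2 * (m + 1) * (r / h) := by
    intro j hj
    have hne : i ≠ j := fun e => (Finset.mem_erase.1 hj).1 e.symm
    have h4 := h2 i j hne
    rw [abs_div, div_le_iff₀ (hpos.trans_le h4)]
    refine (h1 j).trans ?_
    have e : 2 * r = 2 * (m + 1) * (r / h) * (h / ((m : ℝ) + 1)) := by
      field_simp
    rw [e]
    refine mul_le_mul_of_nonneg_left h4 ?_
    have : 0 ≤ r / h := div_nonneg (hh.le.trans hr) hh.le
    positivity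
  refine (Finset.prod_le_prod (fun j _ => abs_nonneg _) h3).trans (le_of_eq ?_)
  rw [Finset.prod_const, Finset.card_erase_of_mem (Finset.mem_univ i), Finset.card_univ,
    Fintype.card_fin, Fintype.card_fin, Nat.add_sub_cancel]

/-- **(PKR)** The sections at the times far from a window. -/
theorem krs_sec (m M E : ℕ) : ∃ C : ℝ, 1 ≤ C ∧ ∀ (J : ℕ)
    (f : Fin M → MvPolynomial (Fin m ⊕ Fin m) ℝ), (∀ i, (f i).totalDegree ≤ E) → LpJ J f →
    ∀ a h r t : ℝ, 0 ≤ a → 0 < h → a + h ≤ 1 → h ≤ r → 0 ≤ t → t ≤ 1 → |t - a| ≤ r →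
    (((lsec J t (LLn f 1)).ncard : ℕ) : ℝ) ≤
      C * (r / h) ^ m * mxs J (Set.Icc a (a + h)) (LLn f 2) := by
  classical
  obtain ⟨p, hp1, hp⟩ := exists_pow m M
  obtain ⟨d, hd⟩ : ∃ d : ℕ, d = 2 * p * (E + 1) := ⟨_, rfl⟩
  have hd1 : 1 ≤ d := by rw [hd]; exact Nat.succ_le_of_lt (by positivity)
  obtain ⟨N, hN⟩ : ∃ N : ℕ, N = (d + 1) ^ (Fintype.card (Fin m) + Fintype.card (Fin m)) := ⟨_, rfl⟩
  obtain ⟨W, hW⟩ : ∃ W : ℝ, W = ((m : ℝ) + 1) * (2 * (m + 1)) ^ m := ⟨_, rfl⟩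
  have hW0 : 0 ≤ W := by rw [hW]; positivity
  refine ⟨26 ^ m + N * W, ?_, ?_⟩
  · have h1 : (1 : ℝ) ≤ 26 ^ m := one_le_pow₀ (by norm_num)
    have h2 : 0 ≤ N * W := by positivity
    linarith
  intro J f hf hL a h r t ha hh hah hhr ht0 ht1 htr
  have hr0 : 0 < r := hh.trans_le hhr
  have hrh : 1 ≤ r / h := by rw [le_div_iff₀ hh]; linarith
  have hrhm : 1 ≤ (r / h) ^ m := one_le_pow₀ hrh
  have hI : Set.Icc a (a + h) ⊆ Set.Icc 0 1 := Set.Icc_subset_Icc ha hah
  have hfin : (lsec J t (LLn f 1)).Finite :=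
    lsec_fin ht0 ht1 ((LLn_mono f one_le_two).trans (LLn_sub f))
  have hK0 : 0 ≤ (N : ℝ) * W := by positivity
  have h9 : (1 : ℝ) ≤ 26 ^ m := one_le_pow₀ (by norm_num)
  rcases Nat.lt_or_ge J 2 with hJ2 | hJ2
  · -- few digits
    rcases (LLn f 1).eq_empty_or_nonempty with he | hne
    · rw [he]
      unfold lsec
      rw [Set.image_empty, Set.ncard_empty, Nat.cast_zero]
      positivity
    · have h1 : 1 ≤ mxs J (Set.Icc a (a + h)) (LLn f 2) :=
        mxs_pos hI (LLn_sub f) (hne.mono (LLn_mono f one_le_two)) (t := a)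
          ⟨le_rfl, by linarith⟩
      have h1' : (1 : ℝ) ≤ mxs J (Set.Icc a (a + h)) (LLn f 2) := by exact_mod_cast h1
      have h2 : (lsec J t (LLn f 1)).ncard ≤ 26 ^ m := by
        refine (lsec_box ht0 ht1 ((LLn_mono f one_le_two).trans (LLn_sub f))).2.trans ?_
        refine Nat.pow_le_pow_left ?_ m
        have : J ≤ 1 := by omega
        calc 13 * 2 ^ J ≤ 13 * 2 ^ 1 := Nat.mul_le_mul_left _ (Nat.pow_le_pow_right (by norm_num) this)
          _ = 26 := by norm_num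
      have h2' : (((lsec J t (LLn f 1)).ncard : ℕ) : ℝ) ≤ 26 ^ m := by exact_mod_cast h2
      refine h2'.trans ?_
      have h3 : (26 : ℝ) ^ m ≤ (26 ^ m + N * W) * (r / h) ^ m := by
        nlinarith only [h9, hK0, hrhm]
      have h4 : 0 ≤ (26 ^ m + N * W) * (r / h) ^ m := by positivity
      nlinarith only [h3, h4, h1']
  have hJ : (0 : ℝ) < 2 ^ J := by positivity
  have h2J : (2 : ℝ) / 2 ^ J ≤ 1 / 2 := by
    have h4 : (4 : ℝ) ≤ 2 ^ J := by
      calc (4 : ℝ) = 2 ^ 2 := by norm_num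
        _ ≤ 2 ^ J := pow_le_pow_right₀ (by norm_num) hJ2
    rw [div_le_div_iff₀ hJ (by norm_num)]
    linarith
  obtain ⟨𝓥, h𝓥⟩ : ∃ 𝓥 : Finset (Fin m → ℤ), 𝓥 = hfin.toFinset := ⟨_, rfl⟩
  have hcv : (lsec J t (LLn f 1)).ncard = 𝓥.card := by
    rw [h𝓥, Set.ncard_eq_toFinset_card _ hfin]
  obtain ⟨P, hP⟩ : ∃ P : MvPolynomial (Fin m ⊕ Fin m) ℝ, P = bind₁ (thr m t) (pol p f) :=
    ⟨_, rfl⟩
  have hPe : ∀ y A : Fin m → ℝ, eval (Sum.elim y A) P =
      eval (Sum.elim A fun k => y k - t * A k) (pol p f) := by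
    intro y A
    rw [hP, eval_thr]
  have h1 := card_mul_le_volume (𝓥.image (fun v k => (v k : ℝ) * (1 / 2 ^ J)))
    (δ := 1 / 2 ^ J) (by positivity) (cells_sep J 𝓥)
    {y ∈ Set.univ | ∃ A : Fin m → ℝ, ‖A‖ ≤ 1 ∧ eval (Sum.elim y A) P ≤ 1} (by
      intro D hD y' hy'
      obtain ⟨v, hv, rfl⟩ := Finset.mem_image.1 hD
      rw [h𝓥, Set.Finite.mem_toFinset] at hv
      obtain ⟨l, hl, rfl⟩ := hv
      rw [Metric.mem_ball] at hy'
      have h2 := near_cell hy'
      have h2' : ∀ k, |(y' k - t * l.2 k) - l.1 k| ≤ 2 / 2 ^ J := by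
        intro k
        have e : (y' k - t * l.2 k) - l.1 k = y' k - lpos l t k := by
          unfold lpos
          ring
        rw [e]
        exact h2 k
      refine ⟨Set.mem_univ _, l.2, ?_, ?_⟩
      · rw [pi_norm_le_iff_of_nonneg zero_le_one]
        exact fun k => hl.1.2 k
      · rw [hPe]
        refine pol_le p f _ (fun i => ?_) ?_
        · exact hL l (fun k => y' k - t * l.2 k, l.2) hl h2'
            (fun k => by rw [sub_self, abs_zero]; positivity) i
        · rintro (k | k)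
          · simp only [Sum.elim_inl]
            have := hl.1.2 k
            linarith only [this]
          · simp only [Sum.elim_inr]
            have h3 := h2' k
            have h4 := hl.1.1 k
            have e : y' k - t * l.2 k = ((y' k - t * l.2 k) - l.1 k) + l.1 k := by ring
            rw [e]
            refine (abs_add_le _ _).trans ?_
            linarith only [h3, h4, h2J])
  rw [Finset.card_image_of_injective 𝓥 (cells_inj J)] at h1
  obtain ⟨s, hs⟩ : ∃ s : Fin (Fintype.card (Fin m) + 1) → ℝ,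
    s = fun i => a + h * tt m i - t := ⟨_, rfl⟩
  have hsinj : Function.Injective s := by
    intro i j hij
    rw [hs] at hij
    simp only at hij
    have h3 : h * tt m i = h * tt m j := by linarith
    exact tt_inj m (mul_left_cancel₀ hh.ne' h3)
  have h2 := volume_slice_le (μ := Fin m) (ν := Fin m) hd1 P
    (by
      rw [hP, hd]
      exact (Pool.Agent.H50.PW.totalDegree_bind₁_le _ (deg_thr t) _).trans (deg_pol p E f hf))
    (by
      intro x
      have e : x = Sum.elim (fun k => x (Sum.inl k)) (fun k => x (Sum.inr k)) := by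
        funext b
        rcases b with k | k <;> rfl
      rw [e, hPe]
      exact pol_nonneg p f _) (fun k => X k)
    (fun k => by rw [totalDegree_X]; exact hd1) s hsinj Set.univ MeasurableSet.univ
  have h3 : ∀ i, MeasureTheory.volume (sweptS P (fun k : Fin m => X k) Set.univ (s i)) ≤
      ((mxs J (Set.Icc a (a + h)) (LLn f 2) : ℕ) : ENNReal) *
        ENNReal.ofReal (1 / 2 ^ J) ^ m := by
    intro i
    have hti := tt_mem m i
    have hti2 : a + h * tt m i ∈ Set.Icc a (a + h) := by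
      have g1 := mul_nonneg hh.le hti.1
      have g2 := mul_le_mul_of_nonneg_left hti.2 hh.le
      constructor <;> linarith
    have h4 : sweptS P (fun k : Fin m => X k) Set.univ (s i) ⊆
        (fun l => lpos l (a + h * tt m i)) '' LLn f 2 := by
      rintro x ⟨y, -, A, -, hP', hy⟩
      rw [Fintype.card_fin, hPe] at hP'
      obtain ⟨g1, g2⟩ := pol_ge p hp hp1 f _ hP'
      refine ⟨(fun k => y k - t * A k, A),
        ⟨⟨fun k => g2 (Sum.inr k), fun k => g2 (Sum.inl k)⟩, g1⟩, ?_⟩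
      funext k
      have := hy k
      rw [eval_X] at this
      rw [this, hs]
      show y k - t * A k + (a + h * tt m i) * A k = y k + (a + h * tt m i - t) * A k
      ring
    have hti3 := hI hti2
    have h5 : (fl J '' ((fun l => lpos l (a + h * tt m i)) '' LLn f 2)).Finite := by
      rw [← lsec_eq]
      exact lsec_fin hti3.1 hti3.2 (LLn_sub f)
    refine (MeasureTheory.measure_mono h4).trans ((vol_cells J _ h5).trans ?_)
    refine mul_le_mul_left ?_ _
    rw [← lsec_eq]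
    exact_mod_cast le_mxs hI (LLn_sub f) hti2
  have hwz : ∀ i, wz s i ≤ (2 * (m + 1) * (r / h)) ^ m := by
    intro i
    refine wz_le m s h r hh hhr ?_ ?_ i
    · intro j
      have hti := tt_mem m j
      rw [hs]
      simp only
      have e : a + h * tt m j - t = -(t - a) + h * tt m j := by ring
      rw [e]
      refine (abs_add_le _ _).trans ?_
      rw [abs_neg, abs_mul, abs_of_pos hh, abs_of_nonneg hti.1]
      have := mul_le_mul_of_nonneg_left hti.2 hh.le
      linarith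
    · intro j k hjk
      rw [hs]
      simp only
      have e : a + h * tt m j - t - (a + h * tt m k - t) = h * (tt m j - tt m k) := by ring
      rw [e, abs_mul, abs_of_pos hh, div_eq_mul_one_div]
      refine mul_le_mul_of_nonneg_left ?_ hh.le
      have h5 : tt m j - tt m k = (((j : ℕ) : ℝ) - (k : ℕ)) / ((m : ℝ) + 1) := by
        unfold tt
        ring
      have hm : (0 : ℝ) < (m : ℝ) + 1 := by positivity
      rw [h5, abs_div, abs_of_pos hm]
      refine div_le_div_of_nonneg_right ?_ hm.le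
      have h6 : ((j : ℕ) : ℤ) - (k : ℕ) ≠ 0 := by
        intro e0
        exact hjk (Fin.ext (by omega))
      have h7 : (1 : ℤ) ≤ |((j : ℕ) : ℤ) - (k : ℕ)| := Int.one_le_abs h6
      exact_mod_cast h7
  have h4 : (𝓥.card : ENNReal) * ENNReal.ofReal (1 / 2 ^ J) ^ Fintype.card (Fin m) ≤
      ENNReal.ofReal ((N : ℝ) * (W * (r / h) ^ m *
        (mxs J (Set.Icc a (a + h)) (LLn f 2) * (1 / 2 ^ J) ^ m))) := by
    refine h1.trans (h2.trans ?_)
    rw [← hN, ENNReal.ofReal_mul (Nat.cast_nonneg _), ENNReal.ofReal_natCast]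
    refine mul_le_mul_right ?_ _
    have h5 : ∀ i ∈ (Finset.univ : Finset (Fin (Fintype.card (Fin m) + 1))),
        ENNReal.ofReal (wz s i) * MeasureTheory.volume (sweptS P (fun k : Fin m => X k)
          Set.univ (s i)) ≤ ENNReal.ofReal ((2 * (m + 1) * (r / h)) ^ m *
            (mxs J (Set.Icc a (a + h)) (LLn f 2) * (1 / 2 ^ J) ^ m)) := by
      intro i _
      rw [ENNReal.ofReal_mul (by positivity)]
      refine mul_le_mul' (ENNReal.ofReal_le_ofReal (hwz i)) ?_
      refine (h3 i).trans (le_of_eq ?_)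
      rw [ENNReal.ofReal_mul (Nat.cast_nonneg _), ENNReal.ofReal_natCast,
        ENNReal.ofReal_pow (by positivity)]
    refine (Finset.sum_le_sum h5).trans (le_of_eq ?_)
    rw [Finset.sum_const, Finset.card_univ, Fintype.card_fin, Fintype.card_fin, nsmul_eq_mul,
      ← ENNReal.ofReal_natCast, ← ENNReal.ofReal_mul (Nat.cast_nonneg _)]
    congr 1
    rw [hW, mul_pow (2 * ((m : ℝ) + 1))]
    push_cast
    ring
  rw [Fintype.card_fin, ← ENNReal.ofReal_natCast, ← ENNReal.ofReal_pow (by positivity),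
    ← ENNReal.ofReal_mul (Nat.cast_nonneg _), ENNReal.ofReal_le_ofReal_iff (by positivity)] at h4
  rw [hcv]
  have h5 : (0 : ℝ) < (1 / 2 ^ J) ^ m := by positivity
  have h6 : (𝓥.card : ℝ) ≤ N * W * (r / h) ^ m * mxs J (Set.Icc a (a + h)) (LLn f 2) := by
    refine le_of_mul_le_mul_right ?_ h5
    linarith only [h4]
  have h7 : (0 : ℝ) ≤ 26 ^ m * (r / h) ^ m * mxs J (Set.Icc a (a + h)) (LLn f 2) := by
    positivity
  linarith only [h6, h7]

end Pool.BE
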