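import Pool.Agent.H32.BE.Sec
import Pool.Agent.H50.PW.Cover

/-!
# Sets of lines of bounded degree, and one polynomial which describes them up to a factor `4 / 3`
-/

set_option autoImplicit false

namespace Pool.BE

open Finset Real MvPolynomial
open Pool.Agent.H49.Ent Pool.Agent.H32.Dense Pool.STK Pool.KA
open Pool.SH (Ln lpos lsec)

variable {m M : ℕ}

/-- The value of a polynomial of the line: the first group of variables is the direction, the
second one the position at time zero. -/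
noncomputable def evl (l : Ln m) (g : MvPolynomial (Fin m ⊕ Fin m) ℝ) : ℝ :=
  eval (Sum.elim l.2 l.1) g

/-- The lines in the box `a` with `|f i| ≤ a` for all `i`. -/
def LLn (f : Fin M → MvPolynomial (Fin m ⊕ Fin m) ℝ) (a : ℝ) : Set (Ln m) :=
  {l | l ∈ Bx m a ∧ ∀ i, |evl l (f i)| ≤ a}

/-- Lipschitz at the last digit. -/
def LpJ (J : ℕ) (f : Fin M → MvPolynomial (Fin m ⊕ Fin m) ℝ) : Prop :=
  ∀ l l' : Ln m, l ∈ LLn f 1 → (∀ k, |l'.1 k - l.1 k| ≤ 2 / 2 ^ J) →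
    (∀ k, |l'.2 k - l.2 k| ≤ 2 / 2 ^ J) → ∀ i, |evl l' (f i)| ≤ 3 / 2

/-- The polynomial. -/
noncomputable def pol (p : ℕ) (f : Fin M → MvPolynomial (Fin m ⊕ Fin m) ℝ) :
    MvPolynomial (Fin m ⊕ Fin m) ℝ :=
  C (1 / ((M : ℝ) + 2 * m + 1)) * (∑ i, (C (2 / 3) * f i) ^ (2 * p) +
    ∑ a : Fin m ⊕ Fin m, (C (2 / 3) * X a) ^ (2 * p))

theorem eval_pol (p : ℕ) (f : Fin M → MvPolynomial (Fin m ⊕ Fin m) ℝ) (x : Fin m ⊕ Fin m → ℝ) :
    eval x (pol p f) = 1 / ((M : ℝ) + 2 * m + 1) * (∑ i, (2 / 3 * eval x (f i)) ^ (2 * p) +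
      ∑ a : Fin m ⊕ Fin m, (2 / 3 * x a) ^ (2 * p)) := by
  unfold pol
  simp only [map_mul, map_add, map_sum, map_pow, eval_C, eval_X]

theorem pol_nonneg (p : ℕ) (f : Fin M → MvPolynomial (Fin m ⊕ Fin m) ℝ)
    (x : Fin m ⊕ Fin m → ℝ) : 0 ≤ eval x (pol p f) := by
  rw [eval_pol]
  have h1 : 0 ≤ ∑ i, (2 / 3 * eval x (f i)) ^ (2 * p) :=
    Finset.sum_nonneg fun i _ => (even_two_mul p).pow_nonneg _
  have h2 : 0 ≤ ∑ a : Fin m ⊕ Fin m, (2 / 3 * x a) ^ (2 * p) :=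
    Finset.sum_nonneg fun i _ => (even_two_mul p).pow_nonneg _
  positivity

theorem pw_le_one {y : ℝ} (p : ℕ) (h : |y| ≤ 3 / 2) : (2 / 3 * y) ^ (2 * p) ≤ 1 := by
  rw [← (even_two_mul p).pow_abs]
  refine pow_le_one₀ (abs_nonneg _) ?_
  rw [abs_mul, abs_of_pos (by norm_num : (0 : ℝ) < 2 / 3)]
  linarith

theorem pol_le (p : ℕ) (f : Fin M → MvPolynomial (Fin m ⊕ Fin m) ℝ)
    (x : Fin m ⊕ Fin m → ℝ) (h : ∀ i, |eval x (f i)| ≤ 3 / 2) (hx : ∀ a, |x a| ≤ 3 / 2) :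
    eval x (pol p f) ≤ 1 := by
  rw [eval_pol]
  have h1 : ∑ i, (2 / 3 * eval x (f i)) ^ (2 * p) ≤ M := by
    refine (Finset.sum_le_sum fun i _ => pw_le_one p (h i)).trans (le_of_eq ?_)
    rw [Finset.sum_const, Finset.card_univ, Fintype.card_fin, nsmul_eq_mul, mul_one]
  have h2 : ∑ a : Fin m ⊕ Fin m, (2 / 3 * x a) ^ (2 * p) ≤ 2 * m := by
    refine (Finset.sum_le_sum fun i _ => pw_le_one p (hx i)).trans (le_of_eq ?_)
    rw [Finset.sum_const, Finset.card_univ, Fintype.card_sum, Fintype.card_fin, nsmul_eq_mul,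
      mul_one]
    push_cast
    ring
  have h3 : (0 : ℝ) < (M : ℝ) + 2 * m + 1 := by positivity
  rw [one_div, inv_mul_le_iff₀ h3]
  linarith

theorem pol_ge (p : ℕ) (hp : ((M : ℝ) + 2 * m + 1) * (4 * m + 1) ≤ (4 / 3) ^ (2 * p))
    (hp0 : 1 ≤ p) (f : Fin M → MvPolynomial (Fin m ⊕ Fin m) ℝ)
    (x : Fin m ⊕ Fin m → ℝ) (h : eval x (pol p f) ≤ 4 * m + 1) :
    (∀ i, |eval x (f i)| ≤ 2) ∧ ∀ a, |x a| ≤ 2 := by
  rw [eval_pol] at h
  have h3 : (0 : ℝ) < (M : ℝ) + 2 * m + 1 := by positivity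
  rw [one_div, inv_mul_le_iff₀ h3] at h
  have h1 : 0 ≤ ∑ i, (2 / 3 * eval x (f i)) ^ (2 * p) :=
    Finset.sum_nonneg fun i _ => (even_two_mul p).pow_nonneg _
  have h2 : 0 ≤ ∑ a : Fin m ⊕ Fin m, (2 / 3 * x a) ^ (2 * p) :=
    Finset.sum_nonneg fun i _ => (even_two_mul p).pow_nonneg _
  have key : ∀ y : ℝ, (2 / 3 * y) ^ (2 * p) ≤ (4 / 3) ^ (2 * p) → |y| ≤ 2 := by
    intro y hy
    rw [← (even_two_mul p).pow_abs] at hy
    have h4 := (pow_le_pow_iff_left₀ (abs_nonneg (2 / 3 * y)) (by norm_num : (0 : ℝ) ≤ 4 / 3)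
      (by omega : 2 * p ≠ 0)).1 hy
    rw [abs_mul, abs_of_pos (by norm_num : (0 : ℝ) < 2 / 3)] at h4
    linarith
  refine ⟨fun i => key _ ?_, fun a => key _ ?_⟩
  · have h4 := Finset.single_le_sum (f := fun i => (2 / 3 * eval x (f i)) ^ (2 * p))
      (fun i _ => (even_two_mul p).pow_nonneg _) (Finset.mem_univ i)
    linarith
  · have h4 := Finset.single_le_sum (f := fun a => (2 / 3 * x a) ^ (2 * p))
      (fun i _ => (even_two_mul p).pow_nonneg _) (Finset.mem_univ a)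
    linarith

theorem deg_pol (p E : ℕ) (f : Fin M → MvPolynomial (Fin m ⊕ Fin m) ℝ)
    (hf : ∀ i, (f i).totalDegree ≤ E) : (pol p f).totalDegree ≤ 2 * p * (E + 1) := by
  unfold pol
  refine (totalDegree_mul _ _).trans ?_
  rw [totalDegree_C, zero_add]
  refine (totalDegree_add _ _).trans (max_le ?_ ?_)
  · refine (totalDegree_finsetSum _ _).trans (Finset.sup_le fun i _ => ?_)
    refine (totalDegree_pow _ _).trans (Nat.mul_le_mul_left _ ?_)
    refine (totalDegree_mul _ _).trans ?_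
    rw [totalDegree_C, zero_add]
    exact (hf i).trans (Nat.le_succ E)
  · refine (totalDegree_finsetSum _ _).trans (Finset.sup_le fun i _ => ?_)
    refine (totalDegree_pow _ _).trans (Nat.mul_le_mul_left _ ?_)
    refine (totalDegree_mul _ _).trans ?_
    rw [totalDegree_C, zero_add, totalDegree_X]
    exact Nat.succ_le_succ (Nat.zero_le E)

/-- The exponent. -/
theorem exists_pow (m M : ℕ) : ∃ p : ℕ, 1 ≤ p ∧
    ((M : ℝ) + 2 * m + 1) * (4 * m + 1) ≤ (4 / 3) ^ (2 * p) := by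
  obtain ⟨p, hp⟩ := pow_unbounded_of_one_lt (((M : ℝ) + 2 * m + 1) * (4 * m + 1))
    (by norm_num : (1 : ℝ) < (4 / 3) ^ 2)
  refine ⟨p + 1, by omega, ?_⟩
  rw [pow_mul]
  refine hp.le.trans (pow_le_pow_right₀ (by norm_num) (Nat.le_succ p))

/-- The volume of a set is at most the number of its cells times the volume of a cell. -/
theorem vol_cells (J : ℕ) (S : Set (Fin m → ℝ)) (hS : (fl J '' S).Finite) :
    MeasureTheory.volume S ≤
      (((fl J '' S).ncard : ℕ) : ENNReal) * ENNReal.ofReal (1 / 2 ^ J) ^ m := by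
  classical
  have hJ : (0 : ℝ) < 2 ^ J := by positivity
  have h1 : S ⊆ ⋃ z ∈ hS.toFinset, Set.Icc (fun k => (z k : ℝ) * (1 / 2 ^ J))
      (fun k => ((z k : ℝ) + 1) * (1 / 2 ^ J)) := by
    intro x hx
    rw [Set.mem_iUnion₂]
    refine ⟨fl J x, hS.mem_toFinset.2 ⟨x, hx, rfl⟩, ?_, ?_⟩
    · intro k
      have e : fl J x k = ⌊2 ^ J * x k⌋ := rfl
      have h2 := Int.floor_le (2 ^ J * x k)
      simp only
      rw [e, mul_one_div, div_le_iff₀ hJ, mul_comm (x k)]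
      exact h2
    · intro k
      have e : fl J x k = ⌊2 ^ J * x k⌋ := rfl
      have h2 := Int.lt_floor_add_one (2 ^ J * x k)
      simp only
      rw [e, mul_one_div, le_div_iff₀ hJ, mul_comm (x k)]
      exact h2.le
  refine (MeasureTheory.measure_mono h1).trans ?_
  refine (MeasureTheory.measure_biUnion_finset_le _ _).trans (le_of_eq ?_)
  have h2 : ∀ z ∈ hS.toFinset, MeasureTheory.volume (Set.Icc (fun k => (z k : ℝ) * (1 / 2 ^ J))
      (fun k => ((z k : ℝ) + 1) * (1 / 2 ^ J))) = ENNReal.ofReal (1 / 2 ^ J) ^ m := by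
    intro z _
    rw [Real.volume_Icc_pi]
    have h3 : ∀ k : Fin m, ENNReal.ofReal (((z k : ℝ) + 1) * (1 / 2 ^ J) -
        (z k : ℝ) * (1 / 2 ^ J)) = ENNReal.ofReal (1 / 2 ^ J) := by
      intro k
      congr 1
      ring
    rw [Finset.prod_congr rfl fun k _ => h3 k, Finset.prod_const, Finset.card_univ,
      Fintype.card_fin]
  rw [Finset.sum_congr rfl h2, Finset.sum_const, nsmul_eq_mul,
    Set.ncard_eq_toFinset_card _ hS]

end Pool.BE
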