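import Pool.Agent.H9.SH.Defs

/-!
# Sections of sets of lines, and the capacity of a set of lines at a window
-/

set_option autoImplicit false

namespace Pool.BE

open Finset Real
open Pool.Agent.H49.Ent Pool.Agent.H32.Dense Pool.STK Pool.KA
open Pool.SH (Ln lpos lsec)

variable {m : ℕ}

/-- The lines with coordinates bounded by `a`. -/
def Bx (m : ℕ) (a : ℝ) : Set (Ln m) := {l | (∀ i, |l.1 i| ≤ a) ∧ ∀ i, |l.2 i| ≤ a}

theorem Bx_mono {a b : ℝ} (h : a ≤ b) : Bx m a ⊆ Bx m b :=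
  fun _ hl => ⟨fun i => (hl.1 i).trans h, fun i => (hl.2 i).trans h⟩

/-- Finitely many integer points in boxes. -/
theorem fin_box (S : Set (Fin m → ℤ)) (z : Fin m → ℤ) (n : ℕ) (h : ∀ x ∈ S, ∀ i, |x i - z i| ≤ n) :
    S.Finite ∧ S.ncard ≤ (2 * n + 1) ^ m := by
  classical
  obtain ⟨T, hT⟩ : ∃ T : Finset (Fin m → ℤ), T =
      Fintype.piFinset fun i => Finset.Icc (z i - n) (z i + n) := ⟨_, rfl⟩
  have h1 : S ⊆ (T : Set (Fin m → ℤ)) := by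
    intro x hx
    rw [hT, Finset.mem_coe, Fintype.mem_piFinset]
    intro i
    have h2 := abs_le.1 (h x hx i)
    rw [Finset.mem_Icc]
    constructor <;> linarith [h2.1, h2.2]
  refine ⟨T.finite_toSet.subset h1, ?_⟩
  have h2 := Set.ncard_le_ncard h1 T.finite_toSet
  rw [Set.ncard_coe_finset, hT, Fintype.card_piFinset] at h2
  refine h2.trans (le_of_eq ?_)
  have h3 : ∀ i ∈ (Finset.univ : Finset (Fin m)), (Finset.Icc (z i - n) (z i + n)).card =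
      2 * n + 1 := by
    intro i _
    rw [Int.card_Icc]
    omega
  rw [Finset.prod_congr rfl h3, Finset.prod_const, Finset.card_univ, Fintype.card_fin]

/-- The cells of the points near a point. -/
theorem cells_near (J : ℕ) (X : Set (Fin m → ℝ)) (x : Fin m → ℝ) (r : ℝ) (hr : 0 ≤ r)
    (h : ∀ y ∈ X, ∀ i, |y i - x i| ≤ r) :
    (fl J '' X).Finite ∧ (((fl J '' X).ncard : ℕ) : ℝ) ≤ (2 * (r * 2 ^ J) + 5) ^ m := by
  have hJ : (0 : ℝ) < 2 ^ J := by positivity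
  obtain ⟨n, hn⟩ : ∃ n : ℕ, n = ⌈r * 2 ^ J⌉₊ + 1 := ⟨_, rfl⟩
  have hn1 : r * 2 ^ J + 1 ≤ n := by
    rw [hn]
    push_cast
    have := Nat.le_ceil (r * 2 ^ J)
    linarith
  have hn2 : (n : ℝ) < r * 2 ^ J + 2 := by
    rw [hn]
    push_cast
    have := Nat.ceil_lt_add_one (a := r * 2 ^ J) (by positivity)
    linarith
  obtain ⟨h1, h2⟩ := fin_box (fl J '' X) (fl J x) n (by
    rintro _ ⟨y, hy, rfl⟩ i
    have e1 : fl J y i = ⌊2 ^ J * y i⌋ := rfl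
    have e2 : fl J x i = ⌊2 ^ J * x i⌋ := rfl
    have a1 := Int.floor_le (2 ^ J * y i)
    have a2 := Int.lt_floor_add_one (2 ^ J * y i)
    have a3 := Int.floor_le (2 ^ J * x i)
    have a4 := Int.lt_floor_add_one (2 ^ J * x i)
    have h3 : |2 ^ J * y i - 2 ^ J * x i| ≤ r * 2 ^ J := by
      rw [← mul_sub, abs_mul, abs_of_pos hJ, mul_comm]
      exact mul_le_mul_of_nonneg_right (h y hy i) hJ.le
    have h4 : ((|fl J y i - fl J x i| : ℤ) : ℝ) ≤ (n : ℤ) := by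
      rw [e1, e2]
      push_cast
      rw [abs_le] at h3 ⊢
      constructor <;> linarith
    exact_mod_cast h4)
  refine ⟨h1, ?_⟩
  have h3 : (((fl J '' X).ncard : ℕ) : ℝ) ≤ (2 * n + 1) ^ m := by exact_mod_cast h2
  refine h3.trans ?_
  refine pow_le_pow_left₀ (by positivity) (by linarith) m

theorem lsec_eq (J : ℕ) (t : ℝ) (LL : Set (Ln m)) :
    lsec J t LL = fl J '' ((fun l => lpos l t) '' LL) := by
  unfold lsec
  rw [Set.image_image]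

theorem lsec_mono {J : ℕ} {t : ℝ} {LL LL' : Set (Ln m)} (h : LL ⊆ LL') :
    lsec J t LL ⊆ lsec J t LL' := Set.image_mono h

theorem lpos_box {a : ℝ} {l : Ln m} (hl : l ∈ Bx m a) {t : ℝ} (h0 : 0 ≤ t) (h1 : t ≤ 1)
    (i : Fin m) : |lpos l t i| ≤ 2 * a := by
  unfold lpos
  refine (abs_add_le _ _).trans ?_
  rw [abs_mul, abs_of_nonneg h0]
  have h2 := hl.1 i
  have h3 := hl.2 i
  have h4 : t * |l.2 i| ≤ 1 * |l.2 i| := mul_le_mul_of_nonneg_right h1 (abs_nonneg _)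
  linarith

/-- The sections of sets of lines in a box. -/
theorem lsec_box {J : ℕ} {t : ℝ} (h0 : 0 ≤ t) (h1 : t ≤ 1) {LL : Set (Ln m)} (hLL : LL ⊆ Bx m 2) :
    (lsec J t LL).Finite ∧ (lsec J t LL).ncard ≤ (13 * 2 ^ J) ^ m := by
  rw [lsec_eq]
  obtain ⟨h2, h3⟩ := cells_near J ((fun l => lpos l t) '' LL) 0 4 (by norm_num) (by
    rintro _ ⟨l, hl, rfl⟩ i
    have := lpos_box (hLL hl) h0 h1 i
    simp only [Pi.zero_apply, sub_zero]
    linarith)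
  refine ⟨h2, ?_⟩
  have hJ : (1 : ℝ) ≤ 2 ^ J := one_le_pow₀ (by norm_num)
  have h4 : (((fl J '' ((fun l => lpos l t) '' LL)).ncard : ℕ) : ℝ) ≤
      (((13 * 2 ^ J) ^ m : ℕ) : ℝ) := by
    push_cast
    refine h3.trans (pow_le_pow_left₀ (by positivity) (by linarith) m)
  exact_mod_cast h4

theorem lsec_fin {J : ℕ} {t : ℝ} (h0 : 0 ≤ t) (h1 : t ≤ 1) {LL : Set (Ln m)}
    (hLL : LL ⊆ Bx m 2) : (lsec J t LL).Finite := (lsec_box h0 h1 hLL).1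

/-! ### The largest section -/

/-- The number of cells in the largest section at the times in `I`. -/
noncomputable def mxs (J : ℕ) (I : Set ℝ) (LL : Set (Ln m)) : ℕ :=
  sSup ((fun t => (lsec J t LL).ncard) '' I)

theorem mxs_bdd (J : ℕ) {I : Set ℝ} (hI : I ⊆ Set.Icc 0 1) {LL : Set (Ln m)}
    (hLL : LL ⊆ Bx m 2) : BddAbove ((fun t => (lsec J t LL).ncard) '' I) := by
  refine ⟨(13 * 2 ^ J) ^ m, ?_⟩
  rintro _ ⟨t, ht, rfl⟩
  exact (lsec_box (hI ht).1 (hI ht).2 hLL).2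

theorem le_mxs {J : ℕ} {I : Set ℝ} (hI : I ⊆ Set.Icc 0 1) {LL : Set (Ln m)}
    (hLL : LL ⊆ Bx m 2) {t : ℝ} (ht : t ∈ I) : (lsec J t LL).ncard ≤ mxs J I LL :=
  le_csSup (mxs_bdd J hI hLL) ⟨t, ht, rfl⟩

theorem mxs_le {J : ℕ} {I : Set ℝ} {LL : Set (Ln m)} {n : ℕ}
    (h : ∀ t ∈ I, (lsec J t LL).ncard ≤ n) : mxs J I LL ≤ n := by
  refine csSup_le' ?_
  rintro _ ⟨t, ht, rfl⟩
  exact h t ht

theorem mxs_mono {J : ℕ} {I I' : Set ℝ} (hII : I ⊆ I') (hI : I' ⊆ Set.Icc 0 1)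
    {LL LL' : Set (Ln m)} (h : LL ⊆ LL') (hLL : LL' ⊆ Bx m 2) : mxs J I LL ≤ mxs J I' LL' := by
  refine mxs_le fun t ht => ?_
  have h1 := hI (hII ht)
  exact (Set.ncard_le_ncard (lsec_mono h) (lsec_fin h1.1 h1.2 hLL)).trans
    (le_mxs hI hLL (hII ht))

theorem mxs_pos {J : ℕ} {I : Set ℝ} (hI : I ⊆ Set.Icc 0 1) {LL : Set (Ln m)}
    (hLL : LL ⊆ Bx m 2) (hne : LL.Nonempty) {t : ℝ} (ht : t ∈ I) : 1 ≤ mxs J I LL := by
  refine le_trans ?_ (le_mxs hI hLL ht)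
  have h1 := hI ht
  rw [Nat.one_le_iff_ne_zero, Ne, Set.ncard_eq_zero (lsec_fin h1.1 h1.2 hLL)]
  exact (hne.image _).ne_empty

/-! ### Windows -/

/-- The window of length `2 ^ (-w₁)` which contains the window number `T` of length `2 ^ (-w)`. -/
def wnd (w w₁ T : ℕ) : Set ℝ :=
  Set.Icc (((T / 2 ^ (w - w₁) : ℕ) : ℝ) / 2 ^ w₁) ((((T / 2 ^ (w - w₁) : ℕ) : ℝ) + 1) / 2 ^ w₁)

theorem wnd_sub {w w₁ T : ℕ} (hw : w₁ ≤ w) (hT : T < 2 ^ w) : wnd w w₁ T ⊆ Set.Icc 0 1 := by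
  have h1 : T / 2 ^ (w - w₁) < 2 ^ w₁ := by
    rw [Nat.div_lt_iff_lt_mul (by positivity), ← pow_add]
    have e : w₁ + (w - w₁) = w := by omega
    rwa [e]
  have h2 : ((T / 2 ^ (w - w₁) : ℕ) : ℝ) + 1 ≤ 2 ^ w₁ := by exact_mod_cast h1
  intro t ht
  refine ⟨le_trans (by positivity) ht.1, ht.2.trans ?_⟩
  rw [div_le_one (by positivity)]
  exact h2

theorem wnd_zero (w T : ℕ) (hT : T < 2 ^ w) : wnd w 0 T = Set.Icc 0 1 := by
  unfold wnd
  rw [Nat.sub_zero, Nat.div_eq_of_lt hT]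
  simp

theorem wnd_shift (w l w₁ T : ℕ) (hw : w₁ ≤ w) : wnd w w₁ (T / 2 ^ l) = wnd (w + l) w₁ T := by
  unfold wnd
  have e : T / 2 ^ l / 2 ^ (w - w₁) = T / 2 ^ (w + l - w₁) := by
    rw [Nat.div_div_eq_div_mul, ← pow_add]
    congr 2
    omega
  rw [e]

/-- Larger windows. -/
theorem wnd_mono {w w₁ w₂ T : ℕ} (h12 : w₁ ≤ w₂) (h2 : w₂ ≤ w) : wnd w w₂ T ⊆ wnd w w₁ T := by
  obtain ⟨a, ha⟩ : ∃ a : ℕ, a = T / 2 ^ (w - w₂) := ⟨_, rfl⟩
  have e : T / 2 ^ (w - w₁) = a / 2 ^ (w₂ - w₁) := by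
    rw [ha, Nat.div_div_eq_div_mul, ← pow_add]
    congr 2
    omega
  unfold wnd
  rw [e, ← ha]
  have h3 := Nat.div_add_mod a (2 ^ (w₂ - w₁))
  have h4 := Nat.mod_lt a (y := 2 ^ (w₂ - w₁)) (by positivity)
  have h5 : a + 1 ≤ 2 ^ (w₂ - w₁) * (a / 2 ^ (w₂ - w₁) + 1) := by
    rw [mul_add, mul_one]
    omega
  have h6 : 2 ^ (w₂ - w₁) * (a / 2 ^ (w₂ - w₁)) ≤ a := Nat.mul_div_le _ _
  have e2 : (2 : ℝ) ^ w₂ = 2 ^ (w₂ - w₁) * 2 ^ w₁ := by rw [← pow_add, Nat.sub_add_cancel h12]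
  have h5' : (a : ℝ) + 1 ≤ 2 ^ (w₂ - w₁) * (((a / 2 ^ (w₂ - w₁) : ℕ) : ℝ) + 1) := by
    exact_mod_cast h5
  have h6' : 2 ^ (w₂ - w₁) * ((a / 2 ^ (w₂ - w₁) : ℕ) : ℝ) ≤ (a : ℝ) := by exact_mod_cast h6
  have p1 : (0 : ℝ) < 2 ^ w₁ := by positivity
  have p2 : (0 : ℝ) < 2 ^ (w₂ - w₁) := by positivity
  refine Set.Icc_subset_Icc ?_ ?_
  · rw [e2, div_le_div_iff₀ p1 (by positivity)]
    nlinarith
  · rw [e2, div_le_div_iff₀ (by positivity) p1]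
    nlinarith

/-! ### The capacity -/

/-- The capacity of a set of lines at a window. -/
noncomputable def cap (J w T : ℕ) (LL : Set (Ln m)) : ℝ :=
  (Finset.range (w + 1)).sup' ⟨0, Finset.mem_range.2 (Nat.succ_pos w)⟩
    (fun w₁ => Real.log (mxs J (wnd w w₁ T) LL) - m * (((w : ℝ) - w₁) * Real.log 2))

theorem le_cap {J w T : ℕ} {LL : Set (Ln m)} {w₁ : ℕ} (h : w₁ ≤ w) :
    Real.log (mxs J (wnd w w₁ T) LL) - m * (((w : ℝ) - w₁) * Real.log 2) ≤ cap J w T LL :=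
  Finset.le_sup' (fun w₁ : ℕ => Real.log (mxs J (wnd w w₁ T) LL) -
    m * (((w : ℝ) - w₁) * Real.log 2)) (Finset.mem_range.2 (by omega))

theorem cap_le {J w T : ℕ} {LL : Set (Ln m)} {x : ℝ}
    (h : ∀ w₁ ≤ w, Real.log (mxs J (wnd w w₁ T) LL) - m * (((w : ℝ) - w₁) * Real.log 2) ≤ x) :
    cap J w T LL ≤ x := by
  refine Finset.sup'_le _ _ fun w₁ hw₁ => h w₁ ?_
  have := Finset.mem_range.1 hw₁
  omega

theorem log_nat_mono {a b : ℕ} (h : a ≤ b) : Real.log a ≤ Real.log b := by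
  rcases Nat.eq_zero_or_pos a with h0 | h0
  · subst h0
    rw [Nat.cast_zero, Real.log_zero]
    exact Real.log_natCast_nonneg b
  · exact Real.log_le_log (by exact_mod_cast h0) (by exact_mod_cast h)

theorem cap_mono {J w T : ℕ} (hT : T < 2 ^ w) {LL LL' : Set (Ln m)} (h : LL ⊆ LL')
    (hLL : LL' ⊆ Bx m 2) : cap J w T LL ≤ cap J w T LL' := by
  refine cap_le fun w₁ hw₁ => le_trans ?_ (le_cap hw₁)
  have h1 := log_nat_mono (mxs_mono (J := J) (le_refl (wnd w w₁ T)) (wnd_sub hw₁ hT) h hLL)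
  linarith

/-- The cells of one section. -/
theorem cap_cnt {J w T : ℕ} (hT : T < 2 ^ w) {LL : Set (Ln m)} (hLL : LL ⊆ Bx m 2) {t : ℝ}
    (ht : t ∈ wnd w w T) : Real.log ((lsec J t LL).ncard) ≤ cap J w T LL := by
  have h1 := le_cap (J := J) (T := T) (LL := LL) (le_refl w)
  rw [sub_self, zero_mul, mul_zero, sub_zero] at h1
  exact (log_nat_mono (le_mxs (wnd_sub le_rfl hT) hLL ht)).trans h1

theorem cap_nonneg (J w T : ℕ) (LL : Set (Ln m)) : 0 ≤ cap J w T LL := by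
  have h1 := le_cap (J := J) (T := T) (LL := LL) (le_refl w)
  rw [sub_self, zero_mul, mul_zero, sub_zero] at h1
  exact (Real.log_natCast_nonneg _).trans h1

/-- **(DEAD)** -/
theorem cap_dead (J w l T : ℕ) (LL : Set (Ln m)) :
    cap J w (T / 2 ^ l) LL ≤ cap J (w + l) T LL + m * (l * Real.log 2) := by
  refine cap_le fun w₁ hw₁ => ?_
  have h1 := le_cap (J := J) (w := w + l) (T := T) (LL := LL) (w₁ := w₁) (by omega)
  rw [wnd_shift w l w₁ T hw₁]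
  push_cast at h1
  linarith

/-- **(STA)** -/
theorem cap_sta (m : ℕ) (c : ℝ) (hc : 0 ≤ c) : ∀ (J T : ℕ), T < 2 ^ J → ∀ (LL : Set (Ln m))
    (x : Fin m → ℝ), LL ⊆ Bx m 2 → (∀ l ∈ LL, ∀ i, |lpos l ((T : ℝ) / 2 ^ J) i - x i| ≤ c / 2 ^ J) →
    cap J J T LL ≤ m * Real.log (2 * c + 9) := by
  intro J T hT LL x hLL hx
  have hJ : (0 : ℝ) < 2 ^ J := by positivity
  refine cap_le fun w₁ hw₁ => ?_
  have hw : (0 : ℝ) < 2 ^ w₁ := by positivity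
  have e : (2 : ℝ) ^ J = 2 ^ (J - w₁) * 2 ^ w₁ := by rw [← pow_add, Nat.sub_add_cancel hw₁]
  have hq : (1 : ℝ) ≤ 2 ^ (J - w₁) := one_le_pow₀ (by norm_num)
  have ht0 : (T : ℝ) / 2 ^ J ∈ wnd J w₁ T := by
    have h1 : (T : ℝ) / 2 ^ J ∈ wnd J J T := by
      unfold wnd
      rw [Nat.sub_self, pow_zero, Nat.div_one]
      refine ⟨le_rfl, ?_⟩
      exact div_le_div_of_nonneg_right (by linarith) hJ.le
    exact wnd_mono hw₁ le_rfl h1
  have hcnt : ∀ t ∈ wnd J w₁ T, (((lsec J t LL).ncard : ℕ) : ℝ) ≤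
      ((2 * c + 9) * 2 ^ (J - w₁)) ^ m := by
    intro t ht
    have hd : |t - (T : ℝ) / 2 ^ J| ≤ 1 / 2 ^ w₁ := by
      unfold wnd at ht ht0
      rw [add_div] at ht ht0
      rw [abs_le]
      constructor <;> linarith [ht.1, ht.2, ht0.1, ht0.2]
    rw [lsec_eq]
    obtain ⟨-, h2⟩ := cells_near J ((fun l => lpos l t) '' LL) x (c / 2 ^ J + 2 / 2 ^ w₁)
      (by positivity) (by
      rintro _ ⟨l, hl, rfl⟩ i
      have h3 := hx l hl i
      have e1 : lpos l t i - x i = (lpos l ((T : ℝ) / 2 ^ J) i - x i) +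
          (t - (T : ℝ) / 2 ^ J) * l.2 i := by
        unfold lpos
        ring
      simp only
      rw [e1]
      refine (abs_add_le _ _).trans ?_
      rw [abs_mul]
      have h4 := mul_le_mul hd ((hLL hl).2 i) (abs_nonneg _) (by positivity)
      have h5 : 1 / (2 : ℝ) ^ w₁ * 2 = 2 / 2 ^ w₁ := by ring
      linarith)
    refine h2.trans (pow_le_pow_left₀ (by positivity) ?_ m)
    have e2 : (c / 2 ^ J + 2 / 2 ^ w₁) * 2 ^ J = c + 2 * 2 ^ (J - w₁) := by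
      rw [e]
      field_simp
    rw [e2]
    nlinarith
  have h1 : ((mxs J (wnd J w₁ T) LL : ℕ) : ℝ) ≤ ((2 * c + 9) * 2 ^ (J - w₁)) ^ m := by
    have h2 : mxs J (wnd J w₁ T) LL ≤ ⌊((2 * c + 9) * 2 ^ (J - w₁)) ^ m⌋₊ :=
      mxs_le fun t ht => Nat.le_floor (hcnt t ht)
    calc ((mxs J (wnd J w₁ T) LL : ℕ) : ℝ) ≤ (⌊((2 * c + 9) * 2 ^ (J - w₁)) ^ m⌋₊ : ℝ) := by
          exact_mod_cast h2
      _ ≤ _ := Nat.floor_le (by positivity)
  have h2 : Real.log (mxs J (wnd J w₁ T) LL) ≤ Real.log (((2 * c + 9) * 2 ^ (J - w₁)) ^ m) := by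
    rcases Nat.eq_zero_or_pos (mxs J (wnd J w₁ T) LL) with h0 | h0
    · rw [h0, Nat.cast_zero, Real.log_zero]
      refine Real.log_nonneg (one_le_pow₀ ?_)
      nlinarith
    · exact Real.log_le_log (by exact_mod_cast h0) h1
  rw [Real.log_pow, Real.log_mul (by positivity) (by positivity), Real.log_pow,
    Nat.cast_sub hw₁] at h2
  linarith

end Pool.BE
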